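import Pool.Agent.H15.KS.Defs2
import Pool.Agent.H62.KG.Trans

/-!
# The transition maps in the compact layer, and the isomorphism of pro-objects
-/

open CategoryTheory TopologicalSpace Opposite AlgebraicGeometry Limits
open Pool.Agent.H15

universe u

namespace Pool.Agent.H62.KB

noncomputable section

lemma onH_comp {X : Scheme.{u}} {F G P : KS.AbSh X} (g : F ⟶ G) (k : G ⟶ P) (n : ℕ) :
    KS.onH (g ≫ k) n = KS.onH g n ≫ KS.onH k n := by
  refine AddCommGrpCat.hom_ext (AddMonoidHom.ext fun x => ?_)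
  exact Sheaf.H.map_comp_apply g k x

section tr

variable {A : Type u} [CommRing A] [IsLocalRing A] {X : Scheme.{u}}
  (f : X ⟶ Spec (CommRingCat.of A)) (q d : ℕ)
  (κ : KS.K X d ≅ Pool.Agent.H17.KW.KSh X d)
  (φ : ∀ n, KS.Fn f q d n ≅ Pool.Agent.H17.KW.Fsh f q d n)
  (hφ : ∀ n, KS.red (KS.thickι f n) q d ≫ (φ n).hom =
    κ.hom ≫ Pool.Agent.H17.KW.redSh (Pool.Agent.H17.KW.thickι f n) q d)

include hφ

lemma red_eq (n : ℕ) : KS.red (KS.thickι f n) q d =
    κ.hom ≫ Pool.Agent.H17.KW.redSh (Pool.Agent.H17.KW.thickι f n) q d ≫ (φ n).inv := by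
  have h := congrArg (· ≫ (φ n).inv) (hφ n)
  have h1 := Category.assoc (KS.red (KS.thickι f n) q d) (φ n).hom (φ n).inv
  have h2 := Category.assoc κ.hom
    (Pool.Agent.H17.KW.redSh (Pool.Agent.H17.KW.thickι f n) q d) (φ n).inv
  refine Eq.trans ?_ ((h1.symm.trans h).trans h2)
  exact ((congrArg (KS.red (KS.thickι f n) q d ≫ ·) (Iso.hom_inv_id (φ n))).trans
    (Category.comp_id (KS.red (KS.thickι f n) q d))).symm

/-- The reduction is an epimorphism. -/
lemma epi_red (n : ℕ) : Epi (KS.red (KS.thickι f n) q d) := by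
  have e1 : Epi (Pool.Agent.H17.KW.redSh (Pool.Agent.H17.KW.thickι f n) q d) := inferInstance
  have e2 : Epi (Pool.Agent.H17.KW.redSh (Pool.Agent.H17.KW.thickι f n) q d ≫ (φ n).inv) :=
    epi_comp _ _
  have e3 : Epi (κ.hom ≫ Pool.Agent.H17.KW.redSh (Pool.Agent.H17.KW.thickι f n) q d ≫
    (φ n).inv) := epi_comp _ _
  exact (red_eq f q d κ φ hφ n).symm ▸ e3

/-- A morphism of sheaves `F_m ⟶ F_n` compatible with the reductions is `KS.tr f q d m n`. -/
theorem tr_eq {m n : ℕ} (g : KS.Fn f q d m ⟶ KS.Fn f q d n)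
    (hg : KS.red (KS.thickι f m) q d ≫ g = KS.red (KS.thickι f n) q d) :
    KS.tr f q d m n = g := by
  have he := epi_red f q d κ φ hφ m
  refine (cancel_epi (KS.red (KS.thickι f m) q d)).mp ?_
  exact (KS.the_spec (P := fun g : KS.Fn f q d m ⟶ KS.Fn f q d n =>
    KS.red (KS.thickι f m) q d ≫ g = KS.red (KS.thickι f n) q d) ⟨g, hg⟩).trans hg.symm

/-- The transition map is compatible with the reductions. -/
theorem red_tr {m n : ℕ} (h : n ≤ m) :
    KS.red (KS.thickι f m) q d ≫ KS.tr f q d m n = KS.red (KS.thickι f n) q d := by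
  refine KS.the_spec (P := fun g : KS.Fn f q d m ⟶ KS.Fn f q d n =>
    KS.red (KS.thickι f m) q d ≫ g = KS.red (KS.thickι f n) q d)
    ⟨(φ m).hom ≫ Pool.Agent.H62.Clos.transSh f q d h ≫ (φ n).inv, ?_⟩
  rw [red_eq f q d κ φ hφ n]
  have h1 := Category.assoc (KS.red (KS.thickι f m) q d) (φ m).hom
    (Pool.Agent.H62.Clos.transSh f q d h ≫ (φ n).inv)
  refine h1.symm.trans ?_
  rw [hφ m]
  have h2 := Category.assoc κ.hom
    (Pool.Agent.H17.KW.redSh (Pool.Agent.H17.KW.thickι f m) q d)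
    (Pool.Agent.H62.Clos.transSh f q d h ≫ (φ n).inv)
  refine h2.trans (congrArg (κ.hom ≫ ·) ?_)
  have h3 := Category.assoc (Pool.Agent.H17.KW.redSh (Pool.Agent.H17.KW.thickι f m) q d)
    (Pool.Agent.H62.Clos.transSh f q d h) (φ n).inv
  exact h3.symm.trans (congrArg (· ≫ (φ n).inv) (Pool.Agent.H62.Clos.redSh_transSh f q d h))

end tr

section pro

variable {A : Type u} [CommRing A] [IsLocalRing A] {X : Scheme.{u}} [IsNoetherian X]
  (f : X ⟶ Spec (CommRingCat.of A)) (e q : ℕ)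
  (hres : ∀ n, KS.toCHq X e q ≫ KS.res f e q n =
    KS.cyc X e ≫ KS.onH (KS.red (KS.thickι f n) q (e + 1)) (e + 1))
  (htr : ∀ m n, n ≤ m → KS.red (KS.thickι f m) q (e + 1) ≫ KS.tr f q (e + 1) m n =
    KS.red (KS.thickι f n) q (e + 1))

instance epi_toCHq : Epi (KS.toCHq X e q) := by
  refine (AddCommGrpCat.epi_iff_surjective _).mpr ?_
  exact QuotientAddGroup.mk'_surjective _

include hres htr

/-- The restriction maps are compatible with the transition maps. -/
theorem res_tr {m n : ℕ} (h : n ≤ m) :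
    KS.res f e q m ≫ KS.onH (KS.tr f q (e + 1) m n) (e + 1) = KS.res f e q n := by
  refine (cancel_epi (KS.toCHq X e q)).mp ?_
  have h1 := Category.assoc (KS.toCHq X e q) (KS.res f e q m)
    (KS.onH (KS.tr f q (e + 1) m n) (e + 1))
  refine h1.symm.trans ?_
  rw [hres m, hres n]
  have h2 := Category.assoc (KS.cyc X e) (KS.onH (KS.red (KS.thickι f m) q (e + 1)) (e + 1))
    (KS.onH (KS.tr f q (e + 1) m n) (e + 1))
  refine h2.trans (congrArg (KS.cyc X e ≫ ·) ?_)
  exact (onH_comp (KS.red (KS.thickι f m) q (e + 1)) (KS.tr f q (e + 1) m n) (e + 1)).symm.trans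
    (congrArg (fun g => KS.onH g (e + 1)) (htr m n h))

/-- If the restriction maps are bijective for all large `n`, they give an isomorphism of
pro-objects. -/
theorem proIso_of_bijective (n0 : ℕ)
    (hb : ∀ n, n0 ≤ n → Function.Bijective (KS.ap (KS.res f e q n))) : KS.ProIso f e q := by
  intro n
  have hi : IsIso (KS.res f e q (max n n0)) :=
    (ConcreteCategory.isIso_iff_bijective _).mpr (hb _ (le_max_right n n0))
  refine ⟨max n n0, le_max_left n n0, inv (KS.res f e q (max n n0)), ?_, IsIso.hom_inv_id _⟩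
  rw [IsIso.inv_comp_eq]
  exact (res_tr f e q hres htr (le_max_left n n0)).symm

end pro

end

end Pool.Agent.H62.KB
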