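import Pool.Agent.H62.KB.PDefs
import Pool.Agent.H62.KB.T
import Pool.Agent.H62.KG.Thick

/-!
# The restriction map with values in the cohomology of the thickening: bridge
-/

open CategoryTheory CategoryTheory.Limits TopologicalSpace Opposite AlgebraicGeometry
open Pool.Agent.H15.KS

universe u

namespace Pool.Agent.H62.KB

noncomputable section

section unit

lemma unit_one (X : Scheme.{u}) :
    (Clos.adj X.toTopCat).unit.app (AddCommGrpCat.of (ULift.{u} ℤ)) (ULift.up 1) = one X := rfl

lemma homEquiv_one {X : Scheme.{u}} {F : AbSh X} (k : ZZ X ⟶ F) :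
    ((Clos.adj X.toTopCat).homEquiv (AddCommGrpCat.of (ULift.{u} ℤ)) F k) (ULift.up 1) =
      ap (onSecs k ⊤) (one X) := rfl

/-- A morphism from the constant sheaf `ℤ` is determined by its value on `1`. -/
theorem hom_ext_one {X : Scheme.{u}} {F : AbSh X} {k l : ZZ X ⟶ F}
    (h : ap (onSecs k ⊤) (one X) = ap (onSecs l ⊤) (one X)) : k = l := by
  apply ((Clos.adj X.toTopCat).homEquiv (AddCommGrpCat.of (ULift.{u} ℤ)) F).injective
  refine AddCommGrpCat.hom_ext (AddMonoidHom.ext fun z => ?_)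
  obtain ⟨m, hm⟩ : ∃ m : ℤ, z = m • (ULift.up 1 : ULift.{u} ℤ) := by
    refine ⟨z.down, ?_⟩
    ext
    simp
  rw [hm, map_zsmul, map_zsmul]
  exact congrArg (m • ·) h

variable {X Y : Scheme.{u}} (i : Y ⟶ X)

lemma uZ_one : ap (onSecs (X := X) (F := ZZ X) (G := push i (ZZ Y)) (Clos.uZ i.base) ⊤) (one X) =
    one Y := by
  refine (homEquiv_one (F := push i (ZZ Y)) (Clos.uZ i.base)).symm.trans ?_
  have h : (Clos.adj X.toTopCat).homEquiv (AddCommGrpCat.of (ULift.{u} ℤ)) (push i (ZZ Y))
      (Clos.uZ i.base) = (Clos.adj Y.toTopCat).unit.app (AddCommGrpCat.of (ULift.{u} ℤ)) :=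
    Equiv.apply_symm_apply _ _
  rw [h]
  exact unit_one Y

theorem unitZ_eq : unitZ i = Clos.uZ i.base := by
  refine hom_ext_one ?_
  refine Eq.trans ?_ (uZ_one i).symm
  exact the_spec (P := fun k : ZZ X ⟶ push i (ZZ Y) => ap (onSecs k ⊤) (one X) = one Y)
    ⟨Clos.uZ i.base, uZ_one i⟩

end unit

section abelian

universe v w v' w'

variable {𝒜 : Type v} [Category.{w} 𝒜] [Abelian 𝒜] [HasExt.{u} 𝒜]
  {ℬ : Type v'} [Category.{w'} ℬ] [Abelian ℬ] [HasExt.{u} ℬ]

theorem ap_extPush (Φ : 𝒜 ⥤ ℬ) [Φ.Additive] [PreservesFiniteLimits Φ]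
    [PreservesFiniteColimits Φ] {A : 𝒜} {B : ℬ} (k : B ⟶ Φ.obj A) (F : 𝒜) (n : ℕ)
    (x : Abelian.Ext A F n) : ap (extPush Φ k F n) x = Clos.extPush Φ k F n x := by
  obtain ⟨_, _, _, h⟩ := the_spec (P := fun g : AddCommGrpCat.of (Abelian.Ext A F n) ⟶
    AddCommGrpCat.of (Abelian.Ext B (Φ.obj F) n) => ∃ (_ : Φ.Additive)
      (_ : PreservesFiniteLimits Φ) (_ : PreservesFiniteColimits Φ), ∀ x : Abelian.Ext A F n,
        ap g x = (Abelian.Ext.mk₀ k).comp (x.mapExactFunctor Φ) (zero_add n))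
    ⟨AddCommGrpCat.ofHom (Clos.extPush Φ k F n), inferInstance, inferInstance, inferInstance,
      fun x => rfl⟩
  exact h x

end abelian

section push

variable {X Y : Scheme.{u}} (i : Y ⟶ X) (hi : Topology.IsClosedEmbedding i.base)

theorem ap_pushH (F : AbSh Y) (n : ℕ) (x : H F n) :
    ap (pushH i F n) x = Clos.push i.base hi F n x := by
  have h1 : (pushF i).Additive := { map_add := rfl }
  have h2 : PreservesFiniteLimits (pushF i) := (Clos.exact_R i.base hi).1
  have h3 : PreservesFiniteColimits (pushF i) := (Clos.exact_R i.base hi).2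
  refine (ap_extPush (pushF i) (unitZ i) F n x).trans ?_
  rw [unitZ_eq]
  rfl

include hi in
/-- `H^n(Y, F) → H^n(X, i_* F)` is bijective for a closed immersion. -/
theorem bijective_pushH (F : AbSh Y) (n : ℕ) : Function.Bijective (ap (pushH i F n)) := by
  have h : ap (pushH i F n) = Clos.push i.base hi F n := funext fun x => ap_pushH i hi F n x
  rw [h]
  exact Clos.push_bijective i.base hi F n

include hi in
theorem isIso_pushH (F : AbSh Y) (n : ℕ) : IsIso (pushH i F n) :=
  (ConcreteCategory.isIso_iff_bijective _).mpr (bijective_pushH i hi F n)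

end push

section thick

variable {A : Type u} [CommRing A] [IsLocalRing A] {X : Scheme.{u}} [IsNoetherian X]
  (f : X ⟶ Spec (CommRingCat.of A)) (e q : ℕ)

omit [AlgebraicGeometry.IsNoetherian X] in
theorem isIso_pushT (d k n : ℕ) : IsIso (pushH (thickι f n) (Kq (thick f n) q d) k) :=
  isIso_pushH (thickι f n) (Clos.isClosedImmersion_thickι f n).isClosedEmbedding _ k

/-- The isomorphism `H^k(X_n, K_d / q) = H^k(X, F_n)`. -/
def isoT (d k n : ℕ) : HT f q d n k ≅ H (Fn f q d n) k :=
  @asIso AddCommGrpCat.{u} _ (H (Kq (thick f n) q d) k) (H (Fn f q d n) k)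
    (pushH (thickι f n) (Kq (thick f n) q d) k) (isIso_pushT f q d k n)

lemma isoT_hom (d k n : ℕ) : (isoT f q d k n).hom = pushH (thickι f n) (Kq (thick f n) q d) k :=
  rfl

lemma exists_comp_iso {G P Q : AddCommGrpCat.{u}} (φ : P ≅ Q) (r : G ⟶ Q) :
    ∃ g : G ⟶ P, g ≫ φ.hom = r := ⟨r ≫ φ.inv, by rw [Category.assoc, φ.inv_hom_id, Category.comp_id]⟩

/-- The defining property of the restriction map to the cohomology of `X_n`. -/
theorem resT_pushH (n : ℕ) :
    resT f e q n ≫ pushH (thickι f n) (Kq (thick f n) q (e + 1)) (e + 1) = res f e q n :=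
  the_spec (P := fun g : CHq X e q ⟶ HT f q (e + 1) n (e + 1) =>
    g ≫ pushH (thickι f n) (Kq (thick f n) q (e + 1)) (e + 1) = res f e q n)
    (exists_comp_iso (isoT f q (e + 1) (e + 1) n) (res f e q n))

omit [AlgebraicGeometry.IsNoetherian X] in
/-- The defining property of the transition maps. -/
theorem trT_pushH (d k m n : ℕ) :
    trT f q d k m n ≫ pushH (thickι f n) (Kq (thick f n) q d) k =
      pushH (thickι f m) (Kq (thick f m) q d) k ≫ onH (tr f q d m n) k :=
  the_spec (P := fun g : HT f q d m k ⟶ HT f q d n k =>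
    g ≫ pushH (thickι f n) (Kq (thick f n) q d) k =
    pushH (thickι f m) (Kq (thick f m) q d) k ≫ onH (tr f q d m n) k)
    (exists_comp_iso (isoT f q d k n)
      (pushH (thickι f m) (Kq (thick f m) q d) k ≫ onH (tr f q d m n) k))

lemma ap_comp {G P Q : AddCommGrpCat.{u}} (a : G ⟶ P) (b : P ⟶ Q) (x : G) :
    ap (a ≫ b) x = ap b (ap a x) := rfl

theorem ap_res (n : ℕ) : ap (res f e q n) =
    ap (pushH (thickι f n) (Kq (thick f n) q (e + 1)) (e + 1)) ∘ ap (resT f e q n) := by
  rw [← resT_pushH]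
  rfl

omit [AlgebraicGeometry.IsNoetherian X] in
theorem bijective_pushT (d k n : ℕ) :
    Function.Bijective (ap (pushH (thickι f n) (Kq (thick f n) q d) k)) :=
  bijective_pushH (thickι f n) (Clos.isClosedImmersion_thickι f n).isClosedEmbedding _ k

theorem bijective_resT_iff (n : ℕ) :
    Function.Bijective (ap (resT f e q n)) ↔ Function.Bijective (ap (res f e q n)) := by
  rw [ap_res f e q n]
  exact (Function.Bijective.of_comp_iff' (bijective_pushT f q (e + 1) (e + 1) n) _).symm

theorem surjective_resT_iff (n : ℕ) :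
    Function.Surjective (ap (resT f e q n)) ↔ Function.Surjective (ap (res f e q n)) := by
  rw [ap_res f e q n]
  exact (Function.Surjective.of_comp_iff' (bijective_pushT f q (e + 1) (e + 1) n) _).symm

/-- The isomorphism of pro-objects, for the cohomology of the thickenings. -/
theorem proIsoT_of_proIso (h : ProIso f e q) : ProIsoT f e q := by
  intro n
  obtain ⟨m, hm, g, h1, h2⟩ := h n
  refine ⟨m, hm, (isoT f q (e + 1) (e + 1) m).hom ≫ g, ?_, ?_⟩
  · refine (cancel_mono (isoT f q (e + 1) (e + 1) n).hom).mp ?_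
    refine (Category.assoc _ _ _).trans ?_
    refine (congrArg (((isoT f q (e + 1) (e + 1) m).hom ≫ g) ≫ ·) (resT_pushH f e q n)).trans ?_
    refine (Category.assoc _ _ _).trans ?_
    refine (congrArg ((isoT f q (e + 1) (e + 1) m).hom ≫ ·) h1).trans ?_
    exact (trT_pushH f q (e + 1) (e + 1) m n).symm
  · refine (Category.assoc _ _ _).symm.trans ?_
    exact (congrArg (· ≫ g) (resT_pushH f e q m)).trans h2

end thick

end

end Pool.Agent.H62.KB
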