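import Pool.Agent.H15.KS.Defs2

/-!
# The restriction map with values in the cohomology of the thickening
-/

open CategoryTheory CategoryTheory.Limits TopologicalSpace Opposite AlgebraicGeometry
open Pool.Agent.H15.KS

universe u v w v' w'

namespace Pool.Agent.H62.KB

noncomputable section

section abelian

variable {𝒜 : Type v} [Category.{w} 𝒜] [Abelian 𝒜] [HasExt.{u} 𝒜]
  {ℬ : Type v'} [Category.{w'} ℬ] [Abelian ℬ] [HasExt.{u} ℬ]

/-- The homomorphism `Ext^n(A, F) → Ext^n(B, Φ F)`, `x ↦ Φ(x) ∘ k`, for an exact functor `Φ` and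
`k : B ⟶ Φ A` (zero if `Φ` is not exact). -/
def extPush (Φ : 𝒜 ⥤ ℬ) {A : 𝒜} {B : ℬ} (k : B ⟶ Φ.obj A) (F : 𝒜) (n : ℕ) :
    AddCommGrpCat.of (Abelian.Ext A F n) ⟶ AddCommGrpCat.of (Abelian.Ext B (Φ.obj F) n) :=
  the fun g => ∃ (_ : Φ.Additive) (_ : PreservesFiniteLimits Φ) (_ : PreservesFiniteColimits Φ),
    ∀ x : Abelian.Ext A F n, ap g x = (Abelian.Ext.mk₀ k).comp (x.mapExactFunctor Φ) (zero_add n)

end abelian

/-- The direct image functor. -/
def pushF {X Y : Scheme.{u}} (i : Y ⟶ X) : AbSh Y ⥤ AbSh X :=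
  TopCat.Sheaf.pushforward AddCommGrpCat.{u} i.base

/-- The canonical map `ℤ_X ⟶ i_* ℤ_Y`. -/
def unitZ {X Y : Scheme.{u}} (i : Y ⟶ X) : ZZ X ⟶ push i (ZZ Y) :=
  the fun k => ap (onSecs k ⊤) (one X) = one Y

/-- The canonical homomorphism `H^n(Y, F) → H^n(X, i_* F)` (if `i_*` is exact). -/
def pushH {X Y : Scheme.{u}} (i : Y ⟶ X) (F : AbSh Y) (n : ℕ) : H F n ⟶ H (push i F) n :=
  extPush (pushF i) (unitZ i) F n

variable {A : Type u} [CommRing A] [IsLocalRing A] {X : Scheme.{u}} [IsNoetherian X]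
  (f : X ⟶ Spec (CommRingCat.of A))

/-- The group `H^k(X_n, K^M_{m,X_n} / q)`. -/
def HT (q m n k : ℕ) : AddCommGrpCat.{u} := H (Kq (thick f n) q m) k

/-- The restriction map `CH^(e+1)(X) / q → H^(e+1)(X_n, K^M_{e+1,X_n} / q)`. -/
def resT (e q n : ℕ) : CHq X e q ⟶ HT f q (e + 1) n (e + 1) :=
  the fun g => g ≫ pushH (thickι f n) (Kq (thick f n) q (e + 1)) (e + 1) = res f e q n

/-- The transition map `H^k(X_m, K^M_{d,X_m} / q) → H^k(X_n, K^M_{d,X_n} / q)`. -/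
def trT (q d k m n : ℕ) : HT f q d m k ⟶ HT f q d n k :=
  the fun g => g ≫ pushH (thickι f n) (Kq (thick f n) q d) k =
    pushH (thickι f m) (Kq (thick f m) q d) k ≫ onH (tr f q d m n) k

/-- The restriction maps are an isomorphism of pro-objects. -/
def ProIsoT (e q : ℕ) : Prop :=
  ∀ n : ℕ, ∃ m ≥ n, ∃ g : HT f q (e + 1) m (e + 1) ⟶ CHq X e q,
    g ≫ resT f e q n = trT f q (e + 1) (e + 1) m n ∧ resT f e q m ≫ g = 𝟙 _

end

end Pool.Agent.H62.KB
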